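import Mathlib

set_option autoImplicit false

open Finset Filter Topology

namespace Pool.Agent.Results.MP_143e3a_nt.CoprimeVariance

/-- The number of coprime pairs `(i, j)` with `a + 1 ≤ i ≤ a + M`, `b + 1 ≤ j ≤ b + M`. -/
def Z (M a b : ℕ) : ℕ :=
  ((Icc (a + 1) (a + M) ×ˢ Icc (b + 1) (b + M)).filter (fun x => Nat.gcd x.1 x.2 = 1)).card

/-- The proportion of the points `(a, b) ∈ {1, …, n}²` with `Z_M (a, b) = r`. -/
noncomputable def freq (M r n : ℕ) : ℝ :=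
  (((Icc 1 n ×ˢ Icc 1 n).filter (fun x => Z M x.1 x.2 = r)).card : ℝ) / (n : ℝ) ^ 2

/-! ### counting in residue classes -/

lemma cnt (n g v : ℕ) (hg : 0 < g) :
    n / g ≤ ((Icc 1 n).filter (fun i => i ≡ v [MOD g])).card ∧
      ((Icc 1 n).filter (fun i => i ≡ v [MOD g])).card ≤ n / g + 1 := by
  have h1 : ((Icc 1 n).filter (fun i => i ≡ v [MOD g])).card
      = ((range n).filter (fun i => i ≡ v + (g - 1) [MOD g])).card := by
    symm
    refine Finset.card_bij (fun i _ => i + 1) ?_ ?_ ?_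
    · intro i hi
      rw [Finset.mem_filter, Finset.mem_range] at hi
      rw [Finset.mem_filter, Finset.mem_Icc]
      refine ⟨⟨by omega, by omega⟩, ?_⟩
      have h2 : i + 1 ≡ v + (g - 1) + 1 [MOD g] := hi.2.add_right 1
      have h3 : v + (g - 1) + 1 = v + g := by omega
      rw [h3] at h2
      exact h2.trans (by simp [Nat.ModEq])
    · intro i _ j _ h
      simpa using h
    · intro i hi
      rw [Finset.mem_filter, Finset.mem_Icc] at hi
      refine ⟨i - 1, ?_, by omega⟩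
      rw [Finset.mem_filter, Finset.mem_range]
      refine ⟨by omega, ?_⟩
      have h2 : i - 1 + 1 ≡ v + (g - 1) + 1 [MOD g] := by
        have h3 : v + (g - 1) + 1 = v + g := by omega
        rw [h3, Nat.sub_add_cancel hi.1.1]
        exact hi.2.trans (by simp [Nat.ModEq])
      exact Nat.ModEq.add_right_cancel' 1 h2
  rw [h1, ← Nat.count_eq_card_filter_range, Nat.count_modEq_card n hg]
  constructor
  · omega
  · split_ifs <;> omega

lemma cnt_real (n g v : ℕ) (hg : 0 < g) :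
    |((((Icc 1 n).filter (fun i => i ≡ v [MOD g])).card : ℕ) : ℝ) - (n : ℝ) / g| ≤ 1 := by
  obtain ⟨h1, h2⟩ := cnt n g v hg
  have hgr : (0 : ℝ) < g := by exact_mod_cast hg
  have h3 : ((n / g : ℕ) : ℝ) ≤ (n : ℝ) / g := Nat.cast_div_le
  have h4 : (n : ℝ) / g < ((n / g : ℕ) : ℝ) + 1 := by
    rw [div_lt_iff₀ hgr]
    have := Nat.lt_div_mul_add (a := n) hg
    have h5 : n < (n / g + 1) * g := by
      have := Nat.lt_mul_div_succ n hg
      linarith [mul_comm g (n / g + 1)]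
    exact_mod_cast h5
  have h1' : ((n / g : ℕ) : ℝ) ≤ ((((Icc 1 n).filter (fun i => i ≡ v [MOD g])).card : ℕ) : ℝ) := by
    exact_mod_cast h1
  have h2' : ((((Icc 1 n).filter (fun i => i ≡ v [MOD g])).card : ℕ) : ℝ) ≤ ((n / g : ℕ) : ℝ) + 1 := by
    exact_mod_cast h2
  rw [abs_le]
  constructor <;> linarith

/-! ### pairs congruent modulo `g` -/

/-- number of pairs `(i, j)` in `[1, M]²` with `i ≡ j` modulo `g` -/
def Pg (M g : ℕ) : ℕ := ((Icc 1 M ×ˢ Icc 1 M).filter (fun x => x.1 ≡ x.2 [MOD g])).card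

/-- class sizes -/
def nc (M g c : ℕ) : ℕ := ((Icc 1 M).filter (fun i => i ≡ c [MOD g])).card

lemma filter_mod (M g c : ℕ) (hc : c < g) :
    (Icc 1 M).filter (fun i => i % g = c) = (Icc 1 M).filter (fun i => i ≡ c [MOD g]) := by
  apply Finset.filter_congr
  intro i _
  rw [Nat.ModEq, Nat.mod_eq_of_lt hc]

lemma sum_nc (M g : ℕ) (hg : 0 < g) : ∑ c ∈ range g, nc M g c = M := by
  have h1 : (Icc 1 M).card = ∑ c ∈ range g, ((Icc 1 M).filter (fun i => i % g = c)).card :=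
    Finset.card_eq_sum_card_fiberwise (fun i _ => Finset.mem_coe.mpr (Finset.mem_range.mpr (Nat.mod_lt i hg)))
  rw [Nat.card_Icc] at h1
  have h2 : ∑ c ∈ range g, nc M g c = ∑ c ∈ range g, ((Icc 1 M).filter (fun i => i % g = c)).card := by
    refine Finset.sum_congr rfl fun c hc => ?_
    rw [filter_mod M g c (Finset.mem_range.mp hc)]; rfl
  rw [h2, ← h1]; omega

lemma Pg_eq (M g : ℕ) (hg : 0 < g) : Pg M g = ∑ c ∈ range g, nc M g c ^ 2 := by
  unfold Pg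
  have h1 := Finset.card_eq_sum_card_fiberwise (s := (Icc 1 M ×ˢ Icc 1 M).filter (fun x => x.1 ≡ x.2 [MOD g]))
    (t := range g) (f := fun x => x.1 % g)
    (fun i _ => Finset.mem_coe.mpr (Finset.mem_range.mpr (Nat.mod_lt _ hg)))
  rw [h1]
  refine Finset.sum_congr rfl fun c hc => ?_
  have hc' := Finset.mem_range.mp hc
  have h2 : ((Icc 1 M ×ˢ Icc 1 M).filter (fun x => x.1 ≡ x.2 [MOD g])).filter (fun x => x.1 % g = c)
      = ((Icc 1 M).filter (fun i => i ≡ c [MOD g])) ×ˢ ((Icc 1 M).filter (fun i => i ≡ c [MOD g])) := by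
    ext x
    rw [Finset.mem_filter, Finset.mem_filter, Finset.mem_product, Finset.mem_product,
      Finset.mem_filter, Finset.mem_filter]
    simp only [Nat.ModEq, Nat.mod_eq_of_lt hc']
    constructor
    · rintro ⟨⟨⟨h3, h4⟩, h5⟩, h6⟩
      exact ⟨⟨h3, h6⟩, ⟨h4, by rw [← h5]; exact h6⟩⟩
    · rintro ⟨⟨h3, h6⟩, ⟨h4, h7⟩⟩
      exact ⟨⟨⟨h3, h4⟩, by rw [h6, h7]⟩, h6⟩
  rw [h2, Finset.card_product, nc, sq]

/-- the excess -/
noncomputable def hg (M g : ℕ) : ℝ := (Pg M g : ℝ) - (M : ℝ) ^ 2 / g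

lemma hg_eq (M g : ℕ) (hg0 : 0 < g) : hg M g = ∑ c ∈ range g, ((nc M g c : ℝ) - (M : ℝ) / g) ^ 2 := by
  have hgr : (g : ℝ) ≠ 0 := by exact_mod_cast hg0.ne'
  have h1 : (∑ c ∈ range g, (nc M g c : ℝ)) = M := by exact_mod_cast sum_nc M g hg0
  have h2 : (Pg M g : ℝ) = ∑ c ∈ range g, (nc M g c : ℝ) ^ 2 := by exact_mod_cast Pg_eq M g hg0
  unfold hg
  rw [h2]
  have h3 : ∀ c, ((nc M g c : ℝ) - (M : ℝ) / g) ^ 2
      = (nc M g c : ℝ) ^ 2 - 2 * ((M : ℝ) / g) * nc M g c + ((M : ℝ) / g) ^ 2 := fun c => by ring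
  simp_rw [h3]
  rw [Finset.sum_add_distrib, Finset.sum_sub_distrib, ← Finset.mul_sum, h1, Finset.sum_const,
    Finset.card_range, nsmul_eq_mul]
  field_simp
  ring

lemma hg_nonneg (M g : ℕ) (hg0 : 0 < g) : 0 ≤ hg M g := by
  rw [hg_eq M g hg0]; exact Finset.sum_nonneg fun c _ => sq_nonneg _

lemma hg_le (M g : ℕ) (hg0 : 0 < g) : hg M g ≤ g := by
  rw [hg_eq M g hg0]
  calc ∑ c ∈ range g, ((nc M g c : ℝ) - (M : ℝ) / g) ^ 2 ≤ ∑ c ∈ range g, (1 : ℝ) := by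
        refine Finset.sum_le_sum fun c _ => ?_
        have := cnt_real M g c hg0
        rw [← sq_abs]
        exact pow_le_one₀ (abs_nonneg _) this
    _ = g := by simp

lemma hg_le' (M g : ℕ) (hg0 : 0 < g) : hg M g ≤ 2 * M := by
  have hgr : (0 : ℝ) < g := by exact_mod_cast hg0
  rw [hg_eq M g hg0]
  calc ∑ c ∈ range g, ((nc M g c : ℝ) - (M : ℝ) / g) ^ 2
      ≤ ∑ c ∈ range g, ((nc M g c : ℝ) + (M : ℝ) / g) := by
        refine Finset.sum_le_sum fun c _ => ?_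
        have h1 := cnt_real M g c hg0
        have h2 : |(nc M g c : ℝ) - (M : ℝ) / g| ≤ (nc M g c : ℝ) + (M : ℝ) / g := by
          rw [abs_le]
          have h3 : (0 : ℝ) ≤ nc M g c := by positivity
          have h4 : (0 : ℝ) ≤ (M : ℝ) / g := by positivity
          constructor <;> linarith
        rw [← sq_abs, sq]
        calc |(nc M g c : ℝ) - (M : ℝ) / g| * |(nc M g c : ℝ) - (M : ℝ) / g|
            ≤ 1 * |(nc M g c : ℝ) - (M : ℝ) / g| := mul_le_mul_of_nonneg_right h1 (abs_nonneg _)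
          _ ≤ _ := by rw [one_mul]; exact h2
    _ = 2 * M := by
        have h1 : (∑ c ∈ range g, (nc M g c : ℝ)) = M := by exact_mod_cast sum_nc M g hg0
        rw [Finset.sum_add_distrib, h1, Finset.sum_const, Finset.card_range, nsmul_eq_mul]
        field_simp
        ring

/-! ### counting over a full period -/

lemma count_both (Q d e i j : ℕ) (hQ : 0 < Q) (hd : d ∣ Q) (he : e ∣ Q) :
    (((range Q).filter (fun a => d ∣ a + i ∧ e ∣ a + j)).card : ℝ)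
      = if i ≡ j [MOD Nat.gcd d e] then (Q : ℝ) * Nat.gcd d e / (d * e) else 0 := by
  have hd0 : 0 < d := Nat.pos_of_dvd_of_pos hd hQ
  have he0 : 0 < e := Nat.pos_of_dvd_of_pos he hQ
  have hdi : ∀ a, d ∣ a + i ↔ a ≡ i * (d - 1) [MOD d] := by
    intro a
    have h1 : i * (d - 1) + i = d * i := by
      obtain ⟨d', rfl⟩ : ∃ d', d = d' + 1 := ⟨d - 1, by omega⟩
      simp only [Nat.add_sub_cancel]; ring
    constructor
    · intro h
      have h2 : a + i ≡ i * (d - 1) + i [MOD d] := by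
        rw [h1]
        exact ((Nat.modEq_zero_iff_dvd).mpr h).trans ((Nat.modEq_zero_iff_dvd).mpr (Dvd.intro _ rfl)).symm
      exact Nat.ModEq.add_right_cancel' i h2
    · intro h
      have h2 : a + i ≡ i * (d - 1) + i [MOD d] := h.add_right i
      rw [h1] at h2
      exact (Nat.modEq_zero_iff_dvd).mp (h2.trans ((Nat.modEq_zero_iff_dvd).mpr (Dvd.intro _ rfl)))
  have hej : ∀ a, e ∣ a + j ↔ a ≡ j * (e - 1) [MOD e] := by
    intro a
    have h1 : j * (e - 1) + j = e * j := by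
      obtain ⟨e', rfl⟩ : ∃ e', e = e' + 1 := ⟨e - 1, by omega⟩
      simp only [Nat.add_sub_cancel]; ring
    constructor
    · intro h
      have h2 : a + j ≡ j * (e - 1) + j [MOD e] := by
        rw [h1]
        exact ((Nat.modEq_zero_iff_dvd).mpr h).trans ((Nat.modEq_zero_iff_dvd).mpr (Dvd.intro _ rfl)).symm
      exact Nat.ModEq.add_right_cancel' j h2
    · intro h
      have h2 : a + j ≡ j * (e - 1) + j [MOD e] := h.add_right j
      rw [h1] at h2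
      exact (Nat.modEq_zero_iff_dvd).mp (h2.trans ((Nat.modEq_zero_iff_dvd).mpr (Dvd.intro _ rfl)))
  have hgd := Nat.gcd_dvd_left d e
  have hge := Nat.gcd_dvd_right d e
  by_cases hij : i ≡ j [MOD Nat.gcd d e]
  · rw [if_pos hij]
    -- a common solution
    have hcompat : i * (d - 1) ≡ j * (e - 1) [MOD Nat.gcd d e] := by
      have h1 : i * (d - 1) + i ≡ j * (e - 1) + i [MOD Nat.gcd d e] := by
        have e1 : i * (d - 1) + i = d * i := by
          obtain ⟨d', rfl⟩ : ∃ d', d = d' + 1 := ⟨d - 1, by omega⟩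
          simp only [Nat.add_sub_cancel]; ring
        have e2 : j * (e - 1) + j = e * j := by
          obtain ⟨e', rfl⟩ : ∃ e', e = e' + 1 := ⟨e - 1, by omega⟩
          simp only [Nat.add_sub_cancel]; ring
        have e3 : j * (e - 1) + i ≡ j * (e - 1) + j [MOD Nat.gcd d e] := hij.add_left _
        have e4 : d * i ≡ 0 [MOD Nat.gcd d e] :=
          (Nat.modEq_zero_iff_dvd).mpr (hgd.mul_right i)
        have e5 : e * j ≡ 0 [MOD Nat.gcd d e] :=
          (Nat.modEq_zero_iff_dvd).mpr (hge.mul_right j)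
        rw [e1]
        rw [e2] at e3
        exact e4.trans (e3.trans e5).symm
      exact Nat.ModEq.add_right_cancel' i h1
    obtain ⟨x0, hx1, hx2⟩ := Nat.chineseRemainder' hcompat
    have hiff : ∀ a, (d ∣ a + i ∧ e ∣ a + j) ↔ a ≡ x0 [MOD Nat.lcm d e] := by
      intro a
      rw [hdi, hej]
      constructor
      · rintro ⟨h1, h2⟩
        have h3 := h1.trans hx1.symm
        have h4 := h2.trans hx2.symm
        rw [Nat.modEq_iff_dvd] at h3 h4 ⊢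
        have := Int.coe_lcm_dvd h3 h4
        simpa using this
      · intro h
        exact ⟨(h.of_dvd (Nat.dvd_lcm_left d e)).trans hx1, (h.of_dvd (Nat.dvd_lcm_right d e)).trans hx2⟩
    have hl0 : 0 < Nat.lcm d e := Nat.lcm_pos hd0 he0
    have hlQ : Nat.lcm d e ∣ Q := Nat.lcm_dvd hd he
    have hcount : ((range Q).filter (fun a => d ∣ a + i ∧ e ∣ a + j)).card = Q / Nat.lcm d e := by
      rw [Finset.filter_congr (fun a _ => hiff a), ← Nat.count_eq_card_filter_range,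
        Nat.count_modEq_card Q hl0, Nat.mod_eq_zero_of_dvd hlQ]
      simp
    rw [hcount, Nat.cast_div hlQ (by exact_mod_cast hl0.ne')]
    have h5 : (Nat.gcd d e : ℝ) * (Nat.lcm d e : ℝ) = d * e := by exact_mod_cast Nat.gcd_mul_lcm d e
    have hg0 : (Nat.gcd d e : ℝ) ≠ 0 := by exact_mod_cast (Nat.gcd_pos_of_pos_left e hd0).ne'
    have hlr : (Nat.lcm d e : ℝ) ≠ 0 := by exact_mod_cast hl0.ne'
    rw [← h5]
    field_simp
  · rw [if_neg hij]
    have : (range Q).filter (fun a => d ∣ a + i ∧ e ∣ a + j) = ∅ := by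
      rw [Finset.filter_eq_empty_iff]
      rintro a _ ⟨h1, h2⟩
      apply hij
      have h3 : a + i ≡ 0 [MOD Nat.gcd d e] := (Nat.modEq_zero_iff_dvd).mpr (hgd.trans h1)
      have h4 : a + j ≡ 0 [MOD Nat.gcd d e] := (Nat.modEq_zero_iff_dvd).mpr (hge.trans h2)
      exact Nat.ModEq.add_left_cancel' a (h3.trans h4.symm)
    rw [this]; simp

/-- the number of multiples of `d` in the shifted interval -/
def Nd (M d a : ℕ) : ℕ := ((Icc 1 M).filter (fun i => d ∣ a + i)).card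

/-- deviation -/
noncomputable def del (M d a : ℕ) : ℝ := (Nd M d a : ℝ) - (M : ℝ) / d

lemma sum_Nd_mul (M Q d e : ℕ) (hQ : 0 < Q) (hd : d ∣ Q) (he : e ∣ Q) :
    ∑ a ∈ range Q, (Nd M d a : ℝ) * Nd M e a = (Q : ℝ) * Nat.gcd d e / (d * e) * Pg M (Nat.gcd d e) := by
  have h1 : ∀ a, (Nd M d a : ℝ) * Nd M e a
      = ∑ x ∈ Icc 1 M ×ˢ Icc 1 M, if d ∣ a + x.1 ∧ e ∣ a + x.2 then (1 : ℝ) else 0 := by
    intro a
    unfold Nd
    rw [← Nat.cast_mul, ← Finset.card_product, Finset.sum_boole]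
    congr 2
    ext x
    simp only [Finset.mem_product, Finset.mem_filter]
    tauto
  simp_rw [h1]
  rw [Finset.sum_comm]
  have h2 : ∀ x ∈ Icc 1 M ×ˢ Icc 1 M, (∑ a ∈ range Q, if d ∣ a + x.1 ∧ e ∣ a + x.2 then (1 : ℝ) else 0)
      = if x.1 ≡ x.2 [MOD Nat.gcd d e] then (Q : ℝ) * Nat.gcd d e / (d * e) else 0 := by
    intro x _
    rw [← count_both Q d e x.1 x.2 hQ hd he, Finset.sum_boole]
  rw [Finset.sum_congr rfl h2, ← Finset.sum_filter, Finset.sum_const, nsmul_eq_mul, Pg]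
  ring

lemma sum_Nd (M Q d : ℕ) (hQ : 0 < Q) (hd : d ∣ Q) :
    ∑ a ∈ range Q, (Nd M d a : ℝ) = (Q : ℝ) * M / d := by
  have h1 : ∀ a, (Nd M d a : ℝ) = ∑ i ∈ Icc 1 M, if d ∣ a + i ∧ 1 ∣ a + i then (1 : ℝ) else 0 := by
    intro a
    rw [Finset.sum_boole, Nd]
    simp
  simp_rw [h1]
  rw [Finset.sum_comm]
  have h2 : ∀ i ∈ Icc 1 M, (∑ a ∈ range Q, if d ∣ a + i ∧ 1 ∣ a + i then (1 : ℝ) else 0) = (Q : ℝ) / d := by
    intro i _
    have := count_both Q d 1 i i hQ hd (one_dvd _)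
    rw [if_pos (Nat.ModEq.refl i)] at this
    rw [Finset.sum_boole, this]
    simp
  rw [Finset.sum_congr rfl h2, Finset.sum_const, Nat.card_Icc, nsmul_eq_mul]
  simp only [Nat.add_sub_cancel]
  ring

lemma sum_del_mul (M Q d e : ℕ) (hQ : 0 < Q) (hd : d ∣ Q) (he : e ∣ Q) :
    ∑ a ∈ range Q, del M d a * del M e a = (Q : ℝ) * Nat.gcd d e / (d * e) * hg M (Nat.gcd d e) := by
  have hd0 : (d : ℝ) ≠ 0 := by exact_mod_cast (Nat.pos_of_dvd_of_pos hd hQ).ne'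
  have he0 : (e : ℝ) ≠ 0 := by exact_mod_cast (Nat.pos_of_dvd_of_pos he hQ).ne'
  have hg0 : (Nat.gcd d e : ℝ) ≠ 0 := by
    exact_mod_cast (Nat.gcd_pos_of_pos_left e (Nat.pos_of_dvd_of_pos hd hQ)).ne'
  have h1 : ∀ a, del M d a * del M e a = (Nd M d a : ℝ) * Nd M e a - (M : ℝ) / e * Nd M d a
      - (M : ℝ) / d * Nd M e a + (M : ℝ) / d * ((M : ℝ) / e) := by
    intro a; unfold del; ring
  simp_rw [h1]
  rw [Finset.sum_add_distrib, Finset.sum_sub_distrib, Finset.sum_sub_distrib, ← Finset.mul_sum,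
    ← Finset.mul_sum, sum_Nd_mul M Q d e hQ hd he, sum_Nd M Q d hQ hd, sum_Nd M Q e hQ he,
    Finset.sum_const, Finset.card_range, nsmul_eq_mul, hg]
  field_simp
  ring

/-! ### the truncated count -/

/-- pairs whose gcd is coprime to `Q` -/
def ZL (Q M a b : ℕ) : ℕ :=
  ((Icc 1 M ×ˢ Icc 1 M).filter (fun x => Nat.Coprime (Nat.gcd (a + x.1) (b + x.2)) Q)).card

/-- the Möbius function as a real number -/
noncomputable def mu (d : ℕ) : ℝ := ((ArithmeticFunction.moebius d : ℤ) : ℝ)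

lemma mu_sum (n : ℕ) (hn : 0 < n) : ∑ d ∈ n.divisors, mu d = if n = 1 then 1 else 0 := by
  have h1 : (ArithmeticFunction.moebius * (ArithmeticFunction.zeta : ArithmeticFunction ℤ)) n
      = (1 : ArithmeticFunction ℤ) n := by
    rw [ArithmeticFunction.moebius_mul_coe_zeta]
  rw [ArithmeticFunction.coe_mul_zeta_apply, ArithmeticFunction.one_apply] at h1
  unfold mu
  rw [← Int.cast_sum, h1]
  split_ifs <;> simp

lemma abs_mu (d : ℕ) : |mu d| ≤ 1 := by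
  unfold mu
  have := ArithmeticFunction.abs_moebius_le_one (n := d)
  exact_mod_cast this

lemma coprime_ind (m Q : ℕ) (hm : 0 < m) (hQ : 0 < Q) :
    (if Nat.Coprime m Q then (1 : ℝ) else 0) = ∑ d ∈ Q.divisors, if d ∣ m then mu d else 0 := by
  rw [← Finset.sum_filter]
  have h1 : Q.divisors.filter (fun d => d ∣ m) = (Nat.gcd m Q).divisors := by
    ext d
    rw [Finset.mem_filter, Nat.mem_divisors, Nat.mem_divisors, Nat.dvd_gcd_iff]
    constructor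
    · rintro ⟨⟨h1, h2⟩, h3⟩
      exact ⟨⟨h3, h1⟩, (Nat.gcd_pos_of_pos_left Q hm).ne'⟩
    · rintro ⟨⟨h1, h2⟩, h3⟩
      exact ⟨⟨h2, hQ.ne'⟩, h1⟩
  rw [h1, mu_sum _ (Nat.gcd_pos_of_pos_left Q hm)]

lemma ZL_eq (Q M a b : ℕ) (hQ : 0 < Q) :
    (ZL Q M a b : ℝ) = ∑ d ∈ Q.divisors, mu d * (Nd M d a * Nd M d b) := by
  have h1 : (ZL Q M a b : ℝ) = ∑ x ∈ Icc 1 M ×ˢ Icc 1 M,
      if Nat.Coprime (Nat.gcd (a + x.1) (b + x.2)) Q then (1 : ℝ) else 0 := by
    rw [Finset.sum_boole, ZL]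
  rw [h1]
  have h2 : ∀ x ∈ Icc 1 M ×ˢ Icc 1 M,
      (if Nat.Coprime (Nat.gcd (a + x.1) (b + x.2)) Q then (1 : ℝ) else 0)
      = ∑ d ∈ Q.divisors, if d ∣ a + x.1 ∧ d ∣ b + x.2 then mu d else 0 := by
    intro x hx
    rw [Finset.mem_product, Finset.mem_Icc, Finset.mem_Icc] at hx
    rw [coprime_ind _ Q (Nat.gcd_pos_of_pos_left _ (by omega)) hQ]
    refine Finset.sum_congr rfl fun d _ => ?_
    simp only [Nat.dvd_gcd_iff]
  rw [Finset.sum_congr rfl h2, Finset.sum_comm]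
  refine Finset.sum_congr rfl fun d _ => ?_
  rw [← Finset.sum_filter, Finset.sum_const, nsmul_eq_mul]
  have h3 : (Icc 1 M ×ˢ Icc 1 M).filter (fun x => d ∣ a + x.1 ∧ d ∣ b + x.2)
      = ((Icc 1 M).filter (fun i => d ∣ a + i)) ×ˢ ((Icc 1 M).filter (fun i => d ∣ b + i)) := by
    ext x
    simp only [Finset.mem_product, Finset.mem_filter]
    tauto
  rw [h3, Finset.card_product]
  unfold Nd
  push_cast; ring

/-- the centre -/
noncomputable def cen (Q M : ℕ) : ℝ := ∑ d ∈ Q.divisors, mu d * ((M : ℝ) ^ 2 / (d : ℝ) ^ 2)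

/-- the linear part -/
noncomputable def U (Q M a : ℕ) : ℝ := ∑ d ∈ Q.divisors, mu d * ((M : ℝ) / d * del M d a)

/-- the bilinear part -/
noncomputable def W (Q M a b : ℕ) : ℝ := ∑ d ∈ Q.divisors, mu d * (del M d a * del M d b)

lemma ZL_decomp (Q M a b : ℕ) (hQ : 0 < Q) :
    (ZL Q M a b : ℝ) - cen Q M = U Q M a + U Q M b + W Q M a b := by
  rw [ZL_eq Q M a b hQ, cen, U, U, W, ← Finset.sum_sub_distrib, ← Finset.sum_add_distrib,
    ← Finset.sum_add_distrib]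
  refine Finset.sum_congr rfl fun d hd => ?_
  have hd0 : (d : ℝ) ≠ 0 := by
    have := Nat.pos_of_mem_divisors hd
    exact_mod_cast this.ne'
  unfold del
  field_simp
  ring

/-! ### the double sum -/

lemma sum_inv_sq (n : ℕ) : ∑ i ∈ Icc 1 n, ((i : ℝ) ^ 2)⁻¹ ≤ 2 := by
  rcases Nat.eq_zero_or_pos n with rfl | hn
  · simp
  · have h1 : Icc 1 n = insert 1 (Ioc 1 n) := by
      ext i; simp only [Finset.mem_Icc, Finset.mem_insert, Finset.mem_Ioc]; omega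
    rw [h1, Finset.sum_insert (by simp)]
    have h2 := sum_Ioc_inv_sq_le_sub (α := ℝ) one_ne_zero (show 1 ≤ n from hn)
    have h3 : (0 : ℝ) ≤ (n : ℝ)⁻¹ := by positivity
    simp only [Nat.cast_one, inv_one] at h2
    norm_num
    linarith

lemma sum_div (Q g : ℕ) (hQ : 0 < Q) (hg : 0 < g) :
    ∑ d ∈ Q.divisors.filter (fun d => g ∣ d), ((d : ℝ) ^ 2)⁻¹ ≤ 2 * ((g : ℝ) ^ 2)⁻¹ := by
  have hsub : Q.divisors.filter (fun d => g ∣ d) ⊆ (Icc 1 Q).image (fun i => g * i) := by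
    intro d hd
    rw [Finset.mem_filter, Nat.mem_divisors] at hd
    obtain ⟨⟨h1, _⟩, ⟨i, rfl⟩⟩ := hd
    rw [Finset.mem_image]
    have h2 : g * i ≤ Q := Nat.le_of_dvd hQ h1
    have h3 : 0 < g * i := Nat.pos_of_dvd_of_pos h1 hQ
    have h4 : 0 < i := Nat.pos_of_mul_pos_left h3 |> fun h => by
      rcases Nat.eq_zero_or_pos i with h | h
      · rw [h, mul_zero] at h3; omega
      · exact h
    refine ⟨i, Finset.mem_Icc.mpr ⟨h4, ?_⟩, rfl⟩
    calc i ≤ g * i := Nat.le_mul_of_pos_left i hg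
      _ ≤ Q := h2
  calc ∑ d ∈ Q.divisors.filter (fun d => g ∣ d), ((d : ℝ) ^ 2)⁻¹
      ≤ ∑ d ∈ (Icc 1 Q).image (fun i => g * i), ((d : ℝ) ^ 2)⁻¹ :=
        Finset.sum_le_sum_of_subset_of_nonneg hsub (fun i _ _ => by positivity)
    _ = ∑ i ∈ Icc 1 Q, (((g * i : ℕ) : ℝ) ^ 2)⁻¹ := by
        rw [Finset.sum_image]
        intro i _ j _ h
        exact Nat.eq_of_mul_eq_mul_left hg h
    _ = ((g : ℝ) ^ 2)⁻¹ * ∑ i ∈ Icc 1 Q, ((i : ℝ) ^ 2)⁻¹ := by
        rw [Finset.mul_sum]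
        refine Finset.sum_congr rfl fun i _ => ?_
        push_cast
        rw [mul_pow, mul_inv]
    _ ≤ ((g : ℝ) ^ 2)⁻¹ * 2 := mul_le_mul_of_nonneg_left (sum_inv_sq Q) (by positivity)
    _ = 2 * ((g : ℝ) ^ 2)⁻¹ := by ring

lemma double_sum (Q : ℕ) (hQ : 0 < Q) :
    ∑ d ∈ Q.divisors, ∑ e ∈ Q.divisors, (Nat.gcd d e : ℝ) ^ 2 * (((d : ℝ) ^ 2)⁻¹ * ((e : ℝ) ^ 2)⁻¹) ≤ 8 := by
  have h1 : ∀ d ∈ Q.divisors, ∀ e ∈ Q.divisors,
      (Nat.gcd d e : ℝ) ^ 2 * (((d : ℝ) ^ 2)⁻¹ * ((e : ℝ) ^ 2)⁻¹) ≤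
      ∑ g ∈ Q.divisors, (if g ∣ d ∧ g ∣ e then (g : ℝ) ^ 2 * (((d : ℝ) ^ 2)⁻¹ * ((e : ℝ) ^ 2)⁻¹) else 0) := by
    intro d hd e he
    have hmem : Nat.gcd d e ∈ Q.divisors :=
      Nat.mem_divisors.mpr ⟨(Nat.gcd_dvd_left d e).trans (Nat.dvd_of_mem_divisors hd), hQ.ne'⟩
    have h2 := Finset.single_le_sum (f := fun g : ℕ =>
      (if g ∣ d ∧ g ∣ e then (g : ℝ) ^ 2 * (((d : ℝ) ^ 2)⁻¹ * ((e : ℝ) ^ 2)⁻¹) else 0))
      (fun g _ => by split_ifs <;> positivity) hmem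
    simp only [Nat.gcd_dvd_left, Nat.gcd_dvd_right, and_self, if_true] at h2
    exact h2
  calc ∑ d ∈ Q.divisors, ∑ e ∈ Q.divisors, (Nat.gcd d e : ℝ) ^ 2 * (((d : ℝ) ^ 2)⁻¹ * ((e : ℝ) ^ 2)⁻¹)
      ≤ ∑ d ∈ Q.divisors, ∑ e ∈ Q.divisors, ∑ g ∈ Q.divisors,
        (if g ∣ d ∧ g ∣ e then (g : ℝ) ^ 2 * (((d : ℝ) ^ 2)⁻¹ * ((e : ℝ) ^ 2)⁻¹) else 0) :=
        Finset.sum_le_sum fun d hd => Finset.sum_le_sum fun e he => h1 d hd e he
    _ = ∑ g ∈ Q.divisors, (g : ℝ) ^ 2 * ((∑ d ∈ Q.divisors.filter (fun d => g ∣ d), ((d : ℝ) ^ 2)⁻¹) *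
          (∑ d ∈ Q.divisors.filter (fun d => g ∣ d), ((d : ℝ) ^ 2)⁻¹)) := by
        have h3 : ∀ d ∈ Q.divisors, (∑ e ∈ Q.divisors, ∑ g ∈ Q.divisors,
            (if g ∣ d ∧ g ∣ e then (g : ℝ) ^ 2 * (((d : ℝ) ^ 2)⁻¹ * ((e : ℝ) ^ 2)⁻¹) else 0))
            = ∑ g ∈ Q.divisors, ∑ e ∈ Q.divisors,
            (if g ∣ d ∧ g ∣ e then (g : ℝ) ^ 2 * (((d : ℝ) ^ 2)⁻¹ * ((e : ℝ) ^ 2)⁻¹) else 0) :=
          fun d _ => Finset.sum_comm
        rw [Finset.sum_congr rfl h3, Finset.sum_comm]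
        refine Finset.sum_congr rfl fun g _ => ?_
        rw [Finset.sum_filter, Finset.sum_mul_sum, Finset.mul_sum]
        refine Finset.sum_congr rfl fun d _ => ?_
        rw [Finset.mul_sum]
        refine Finset.sum_congr rfl fun e _ => ?_
        by_cases h4 : g ∣ d <;> by_cases h5 : g ∣ e <;> simp [h4, h5]
    _ ≤ ∑ g ∈ Q.divisors, 4 * ((g : ℝ) ^ 2)⁻¹ := by
        refine Finset.sum_le_sum fun g hg => ?_
        have hg0 : 0 < g := Nat.pos_of_mem_divisors hg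
        have hgr : (0 : ℝ) < g := by exact_mod_cast hg0
        have h6 := sum_div Q g hQ hg0
        have h7 : 0 ≤ ∑ d ∈ Q.divisors.filter (fun d => g ∣ d), ((d : ℝ) ^ 2)⁻¹ :=
          Finset.sum_nonneg fun i _ => by positivity
        calc (g : ℝ) ^ 2 * ((∑ d ∈ Q.divisors.filter (fun d => g ∣ d), ((d : ℝ) ^ 2)⁻¹) *
              (∑ d ∈ Q.divisors.filter (fun d => g ∣ d), ((d : ℝ) ^ 2)⁻¹))
            ≤ (g : ℝ) ^ 2 * ((2 * ((g : ℝ) ^ 2)⁻¹) * (2 * ((g : ℝ) ^ 2)⁻¹)) := by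
              apply mul_le_mul_of_nonneg_left _ (by positivity)
              exact mul_le_mul h6 h6 h7 (by positivity)
          _ = 4 * ((g : ℝ) ^ 2)⁻¹ := by field_simp; ring
    _ ≤ ∑ g ∈ Icc 1 Q, 4 * ((g : ℝ) ^ 2)⁻¹ := by
        refine Finset.sum_le_sum_of_subset_of_nonneg ?_ (fun i _ _ => by positivity)
        intro g hg
        exact Finset.mem_Icc.mpr ⟨Nat.pos_of_mem_divisors hg, Nat.divisor_le hg⟩
    _ ≤ 8 := by
        rw [← Finset.mul_sum]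
        have := sum_inv_sq Q
        linarith

lemma U_sq (Q M : ℕ) (hQ : 0 < Q) : ∑ a ∈ range Q, U Q M a ^ 2 ≤ 8 * Q * (M : ℝ) ^ 2 := by
  have h1 : ∀ a, U Q M a ^ 2 = ∑ d ∈ Q.divisors, ∑ e ∈ Q.divisors,
      (mu d * mu e * ((M : ℝ) / d * ((M : ℝ) / e))) * (del M d a * del M e a) := by
    intro a
    rw [sq, U, Finset.sum_mul_sum]
    refine Finset.sum_congr rfl fun d _ => Finset.sum_congr rfl fun e _ => ?_
    ring
  simp_rw [h1]
  rw [Finset.sum_comm]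
  have h2 : ∀ d ∈ Q.divisors, (∑ a ∈ range Q, ∑ e ∈ Q.divisors,
      (mu d * mu e * ((M : ℝ) / d * ((M : ℝ) / e))) * (del M d a * del M e a))
      ≤ ∑ e ∈ Q.divisors, (Q * (M : ℝ) ^ 2) * ((Nat.gcd d e : ℝ) ^ 2 * (((d : ℝ) ^ 2)⁻¹ * ((e : ℝ) ^ 2)⁻¹)) := by
    intro d hd
    rw [Finset.sum_comm]
    refine Finset.sum_le_sum fun e he => ?_
    have hd0 := Nat.pos_of_mem_divisors hd
    have he0 := Nat.pos_of_mem_divisors he
    have hdr : (0 : ℝ) < d := by exact_mod_cast hd0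
    have her : (0 : ℝ) < e := by exact_mod_cast he0
    have hg0 := Nat.gcd_pos_of_pos_left e hd0
    rw [← Finset.mul_sum, sum_del_mul M Q d e hQ (Nat.dvd_of_mem_divisors hd) (Nat.dvd_of_mem_divisors he)]
    have h3 : |mu d * mu e| ≤ 1 := by
      rw [abs_mul]; exact mul_le_one₀ (abs_mu d) (abs_nonneg _) (abs_mu e)
    have h4 := hg_nonneg M _ hg0
    have h5 := hg_le M _ hg0
    calc (mu d * mu e * ((M : ℝ) / d * ((M : ℝ) / e))) * ((Q : ℝ) * Nat.gcd d e / (d * e) * hg M (Nat.gcd d e))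
        = (mu d * mu e) * (((M : ℝ) / d * ((M : ℝ) / e)) * ((Q : ℝ) * Nat.gcd d e / (d * e) * hg M (Nat.gcd d e))) := by
          ring
      _ ≤ 1 * (((M : ℝ) / d * ((M : ℝ) / e)) * ((Q : ℝ) * Nat.gcd d e / (d * e) * hg M (Nat.gcd d e))) := by
          apply mul_le_mul_of_nonneg_right ((le_abs_self _).trans h3)
          positivity
      _ ≤ 1 * (((M : ℝ) / d * ((M : ℝ) / e)) * ((Q : ℝ) * Nat.gcd d e / (d * e) * (Nat.gcd d e : ℝ))) := by
          apply mul_le_mul_of_nonneg_left _ zero_le_one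
          apply mul_le_mul_of_nonneg_left _ (by positivity)
          apply mul_le_mul_of_nonneg_left h5 (by positivity)
      _ = (Q * (M : ℝ) ^ 2) * ((Nat.gcd d e : ℝ) ^ 2 * (((d : ℝ) ^ 2)⁻¹ * ((e : ℝ) ^ 2)⁻¹)) := by
          field_simp
  refine (Finset.sum_le_sum h2).trans ?_
  simp_rw [← Finset.mul_sum]
  calc (Q * (M : ℝ) ^ 2) * ∑ d ∈ Q.divisors, ∑ e ∈ Q.divisors,
        (Nat.gcd d e : ℝ) ^ 2 * (((d : ℝ) ^ 2)⁻¹ * ((e : ℝ) ^ 2)⁻¹)
      ≤ (Q * (M : ℝ) ^ 2) * 8 := mul_le_mul_of_nonneg_left (double_sum Q hQ) (by positivity)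
    _ = 8 * Q * (M : ℝ) ^ 2 := by ring

lemma W_sq (Q M : ℕ) (hQ : 0 < Q) :
    ∑ a ∈ range Q, ∑ b ∈ range Q, W Q M a b ^ 2 ≤ 32 * (Q : ℝ) ^ 2 * (M : ℝ) ^ 2 := by
  have h1 : ∀ a b, W Q M a b ^ 2 = ∑ d ∈ Q.divisors, ∑ e ∈ Q.divisors,
      (mu d * mu e) * ((del M d a * del M e a) * (del M d b * del M e b)) := by
    intro a b
    rw [sq, W, Finset.sum_mul_sum]
    refine Finset.sum_congr rfl fun d _ => Finset.sum_congr rfl fun e _ => ?_
    ring
  have h0 : ∑ a ∈ range Q, ∑ b ∈ range Q, W Q M a b ^ 2 = ∑ d ∈ Q.divisors, ∑ e ∈ Q.divisors,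
      (mu d * mu e) * ((∑ a ∈ range Q, del M d a * del M e a) * (∑ b ∈ range Q, del M d b * del M e b)) := by
    simp_rw [h1]
    have e1 : ∀ a ∈ range Q, (∑ b ∈ range Q, ∑ d ∈ Q.divisors, ∑ e ∈ Q.divisors,
        (mu d * mu e) * ((del M d a * del M e a) * (del M d b * del M e b)))
        = ∑ d ∈ Q.divisors, ∑ e ∈ Q.divisors, ∑ b ∈ range Q,
        (mu d * mu e) * ((del M d a * del M e a) * (del M d b * del M e b)) := by
      intro a _
      rw [Finset.sum_comm]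
      exact Finset.sum_congr rfl fun d _ => Finset.sum_comm
    rw [Finset.sum_congr rfl e1, Finset.sum_comm]
    refine Finset.sum_congr rfl fun d _ => ?_
    rw [Finset.sum_comm]
    refine Finset.sum_congr rfl fun e _ => ?_
    rw [Finset.sum_mul_sum, Finset.mul_sum]
    refine Finset.sum_congr rfl fun a _ => ?_
    rw [Finset.mul_sum]
  rw [h0]
  have h2 : ∀ d ∈ Q.divisors, ∀ e ∈ Q.divisors,
      (mu d * mu e) * ((∑ a ∈ range Q, del M d a * del M e a) * (∑ b ∈ range Q, del M d b * del M e b))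
      ≤ (4 * (Q : ℝ) ^ 2 * (M : ℝ) ^ 2) * ((Nat.gcd d e : ℝ) ^ 2 * (((d : ℝ) ^ 2)⁻¹ * ((e : ℝ) ^ 2)⁻¹)) := by
    intro d hd e he
    have hd0 := Nat.pos_of_mem_divisors hd
    have he0 := Nat.pos_of_mem_divisors he
    have hdr : (0 : ℝ) < d := by exact_mod_cast hd0
    have her : (0 : ℝ) < e := by exact_mod_cast he0
    have hg0 := Nat.gcd_pos_of_pos_left e hd0
    rw [sum_del_mul M Q d e hQ (Nat.dvd_of_mem_divisors hd) (Nat.dvd_of_mem_divisors he)]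
    have h3 : |mu d * mu e| ≤ 1 := by
      rw [abs_mul]; exact mul_le_one₀ (abs_mu d) (abs_nonneg _) (abs_mu e)
    have h4 := hg_nonneg M _ hg0
    have h5 := hg_le' M _ hg0
    set X := (Q : ℝ) * Nat.gcd d e / (d * e) with hX
    have hX0 : 0 ≤ X := by positivity
    calc (mu d * mu e) * ((X * hg M (Nat.gcd d e)) * (X * hg M (Nat.gcd d e)))
        ≤ 1 * ((X * hg M (Nat.gcd d e)) * (X * hg M (Nat.gcd d e))) := by
          apply mul_le_mul_of_nonneg_right ((le_abs_self _).trans h3)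
          positivity
      _ ≤ 1 * ((X * (2 * M)) * (X * (2 * M))) := by
          apply mul_le_mul_of_nonneg_left _ zero_le_one
          have h6 : X * hg M (Nat.gcd d e) ≤ X * (2 * M) := mul_le_mul_of_nonneg_left h5 hX0
          exact mul_le_mul h6 h6 (by positivity) (by positivity)
      _ = (4 * (Q : ℝ) ^ 2 * (M : ℝ) ^ 2) * ((Nat.gcd d e : ℝ) ^ 2 * (((d : ℝ) ^ 2)⁻¹ * ((e : ℝ) ^ 2)⁻¹)) := by
          rw [hX]; field_simp; ring
  calc ∑ d ∈ Q.divisors, ∑ e ∈ Q.divisors,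
      (mu d * mu e) * ((∑ a ∈ range Q, del M d a * del M e a) * (∑ b ∈ range Q, del M d b * del M e b))
      ≤ ∑ d ∈ Q.divisors, ∑ e ∈ Q.divisors,
      (4 * (Q : ℝ) ^ 2 * (M : ℝ) ^ 2) * ((Nat.gcd d e : ℝ) ^ 2 * (((d : ℝ) ^ 2)⁻¹ * ((e : ℝ) ^ 2)⁻¹)) :=
        Finset.sum_le_sum fun d hd => Finset.sum_le_sum fun e he => h2 d hd e he
    _ = (4 * (Q : ℝ) ^ 2 * (M : ℝ) ^ 2) * ∑ d ∈ Q.divisors, ∑ e ∈ Q.divisors,
        ((Nat.gcd d e : ℝ) ^ 2 * (((d : ℝ) ^ 2)⁻¹ * ((e : ℝ) ^ 2)⁻¹)) := by simp_rw [← Finset.mul_sum]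
    _ ≤ (4 * (Q : ℝ) ^ 2 * (M : ℝ) ^ 2) * 8 := mul_le_mul_of_nonneg_left (double_sum Q hQ) (by positivity)
    _ = 32 * (Q : ℝ) ^ 2 * (M : ℝ) ^ 2 := by ring

/-- second moment over a full period -/
lemma second_moment (Q M : ℕ) (hQ : 0 < Q) :
    ∑ a ∈ range Q, ∑ b ∈ range Q, ((ZL Q M a b : ℝ) - cen Q M) ^ 2 ≤ 144 * (Q : ℝ) ^ 2 * (M : ℝ) ^ 2 := by
  have h1 : ∀ a b, ((ZL Q M a b : ℝ) - cen Q M) ^ 2 ≤ 3 * (U Q M a ^ 2 + U Q M b ^ 2 + W Q M a b ^ 2) := by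
    intro a b
    rw [ZL_decomp Q M a b hQ]
    nlinarith [sq_nonneg (U Q M a - U Q M b), sq_nonneg (U Q M a - W Q M a b),
      sq_nonneg (U Q M b - W Q M a b)]
  calc ∑ a ∈ range Q, ∑ b ∈ range Q, ((ZL Q M a b : ℝ) - cen Q M) ^ 2
      ≤ ∑ a ∈ range Q, ∑ b ∈ range Q, 3 * (U Q M a ^ 2 + U Q M b ^ 2 + W Q M a b ^ 2) :=
        Finset.sum_le_sum fun a _ => Finset.sum_le_sum fun b _ => h1 a b
    _ = 3 * (Q * ∑ a ∈ range Q, U Q M a ^ 2 + Q * ∑ b ∈ range Q, U Q M b ^ 2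
        + ∑ a ∈ range Q, ∑ b ∈ range Q, W Q M a b ^ 2) := by
        simp_rw [← Finset.mul_sum, Finset.sum_add_distrib]
        simp only [Finset.sum_const, Finset.card_range, nsmul_eq_mul, ← Finset.mul_sum]
    _ ≤ 3 * (Q * (8 * Q * (M : ℝ) ^ 2) + Q * (8 * Q * (M : ℝ) ^ 2) + 32 * (Q : ℝ) ^ 2 * (M : ℝ) ^ 2) := by
        have h2 := U_sq Q M hQ
        have h3 := W_sq Q M hQ
        have hQr : (0 : ℝ) ≤ Q := by positivity
        have h4 := mul_le_mul_of_nonneg_left h2 hQr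
        linarith
    _ = 144 * (Q : ℝ) ^ 2 * (M : ℝ) ^ 2 := by ring

/-! ### periodicity and means -/

lemma gcd_mod (a Q : ℕ) : Nat.gcd (a % Q) Q = Nat.gcd a Q :=
  (Nat.gcd_rec Q a).symm.trans (Nat.gcd_comm Q a)

lemma ZL_periodic (Q M a b : ℕ) : ZL Q M (a % Q) (b % Q) = ZL Q M a b := by
  unfold ZL
  congr 1
  apply Finset.filter_congr
  intro x _
  have h1 : ∀ u i : ℕ, Nat.gcd (u % Q + i) Q = Nat.gcd (u + i) Q := by
    intro u i
    rw [← gcd_mod (u % Q + i), ← gcd_mod (u + i), Nat.mod_add_mod]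
  have h2 : ∀ u v : ℕ, Nat.Coprime (Nat.gcd u v) Q ↔ Nat.Coprime (Nat.gcd u Q) (Nat.gcd v Q) := by
    intro u v
    rw [Nat.Coprime, Nat.Coprime]
    have : Nat.gcd (Nat.gcd u v) Q = Nat.gcd (Nat.gcd u Q) (Nat.gcd v Q) := by
      apply Nat.dvd_antisymm
      · apply Nat.dvd_gcd
        · exact Nat.dvd_gcd ((Nat.gcd_dvd_left _ _).trans (Nat.gcd_dvd_left _ _)) (Nat.gcd_dvd_right _ _)
        · exact Nat.dvd_gcd ((Nat.gcd_dvd_left _ _).trans (Nat.gcd_dvd_right _ _)) (Nat.gcd_dvd_right _ _)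
      · apply Nat.dvd_gcd
        · exact Nat.dvd_gcd ((Nat.gcd_dvd_left _ _).trans (Nat.gcd_dvd_left _ _))
            ((Nat.gcd_dvd_right _ _).trans (Nat.gcd_dvd_left _ _))
        · exact (Nat.gcd_dvd_left _ _).trans (Nat.gcd_dvd_right _ _)
    rw [this]
  rw [h2, h2 (a + x.1), h1, h1]

lemma Z_eq (M a b : ℕ) : Z M a b =
    ((Icc 1 M ×ˢ Icc 1 M).filter (fun x => Nat.gcd (a + x.1) (b + x.2) = 1)).card := by
  unfold Z
  symm
  refine Finset.card_bij (fun x _ => (a + x.1, b + x.2)) ?_ ?_ ?_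
  · intro x hx
    rw [Finset.mem_filter, Finset.mem_product, Finset.mem_Icc, Finset.mem_Icc] at hx
    rw [Finset.mem_filter, Finset.mem_product, Finset.mem_Icc, Finset.mem_Icc]
    refine ⟨⟨⟨?_, ?_⟩, ?_, ?_⟩, hx.2⟩ <;> dsimp only <;> omega
  · intro x _ y _ h
    simp only [Prod.mk.injEq] at h
    ext <;> omega
  · intro y hy
    rw [Finset.mem_filter, Finset.mem_product, Finset.mem_Icc, Finset.mem_Icc] at hy
    refine ⟨(y.1 - a, y.2 - b), ?_, ?_⟩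
    · rw [Finset.mem_filter, Finset.mem_product, Finset.mem_Icc, Finset.mem_Icc]
      refine ⟨⟨⟨?_, ?_⟩, ?_, ?_⟩, ?_⟩
      · dsimp only; omega
      · dsimp only; omega
      · dsimp only; omega
      · dsimp only; omega
      · dsimp only
        rw [Nat.add_sub_cancel' (by omega), Nat.add_sub_cancel' (by omega)]
        exact hy.2
    · ext <;> dsimp only <;> omega

lemma Z_le (M a b : ℕ) : Z M a b ≤ M ^ 2 := by
  rw [Z_eq]
  refine (Finset.card_filter_le _ _).trans ?_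
  rw [Finset.card_product, Nat.card_Icc]
  simp [sq]

lemma ZL_le (Q M a b : ℕ) : ZL Q M a b ≤ M ^ 2 := by
  unfold ZL
  refine (Finset.card_filter_le _ _).trans ?_
  rw [Finset.card_product, Nat.card_Icc]
  simp [sq]

/-- frequencies of the truncated count -/
noncomputable def freqL (Q M r n : ℕ) : ℝ :=
  (((Icc 1 n ×ˢ Icc 1 n).filter (fun x => ZL Q M x.1 x.2 = r)).card : ℝ) / (n : ℝ) ^ 2

/-- exact distribution of the truncated count -/
noncomputable def qL (Q M r : ℕ) : ℝ :=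
  (((range Q ×ˢ range Q).filter (fun x => ZL Q M x.1 x.2 = r)).card : ℝ) / (Q : ℝ) ^ 2

/-- proportion of a residue class -/
noncomputable def w (Q c n : ℕ) : ℝ := (((Icc 1 n).filter (fun i => i ≡ c [MOD Q])).card : ℝ) / n

lemma w_tendsto (Q c : ℕ) (hQ : 0 < Q) : Tendsto (w Q c) atTop (𝓝 (1 / Q)) := by
  have hb : ∀ᶠ n : ℕ in atTop, |w Q c n - 1 / Q| ≤ 1 / n := by
    filter_upwards [eventually_gt_atTop 0] with n hn
    have hnr : (0 : ℝ) < n := by exact_mod_cast hn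
    have h1 := cnt_real n Q c hQ
    have h2 : w Q c n - 1 / Q
        = (((((Icc 1 n).filter (fun i => i ≡ c [MOD Q])).card : ℕ) : ℝ) - (n : ℝ) / Q) / n := by
      unfold w
      have : (Q : ℝ) ≠ 0 := by exact_mod_cast hQ.ne'
      field_simp
    rw [h2, abs_div, abs_of_pos hnr]
    exact div_le_div_of_nonneg_right h1 hnr.le
  have h0 : Tendsto (fun n : ℕ => w Q c n - 1 / Q) atTop (𝓝 0) := by
    apply squeeze_zero_norm' _ tendsto_one_div_atTop_nhds_zero_nat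
    filter_upwards [hb] with n hn
    rw [Real.norm_eq_abs]; exact hn
  have := h0.add_const (1 / (Q : ℝ))
  simpa using this

lemma freqL_eq (Q M r n : ℕ) (hQ : 0 < Q) (hn : 0 < n) :
    freqL Q M r n = ∑ x ∈ (range Q ×ˢ range Q).filter (fun x => ZL Q M x.1 x.2 = r),
      w Q x.1 n * w Q x.2 n := by
  unfold freqL
  have h1 := Finset.card_eq_sum_card_fiberwise
    (s := (Icc 1 n ×ˢ Icc 1 n).filter (fun x => ZL Q M x.1 x.2 = r))
    (t := (range Q ×ˢ range Q).filter (fun x => ZL Q M x.1 x.2 = r))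
    (f := fun x => (x.1 % Q, x.2 % Q)) (by
      intro x hx
      rw [Finset.mem_coe, Finset.mem_filter] at hx
      rw [Finset.mem_coe, Finset.mem_filter, Finset.mem_product, Finset.mem_range, Finset.mem_range]
      exact ⟨⟨Nat.mod_lt _ hQ, Nat.mod_lt _ hQ⟩, by rw [ZL_periodic]; exact hx.2⟩)
  rw [h1, Nat.cast_sum, Finset.sum_div]
  refine Finset.sum_congr rfl fun c hc => ?_
  rw [Finset.mem_filter, Finset.mem_product, Finset.mem_range, Finset.mem_range] at hc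
  obtain ⟨⟨hc1, hc2⟩, hc3⟩ := hc
  have h2 : ((Icc 1 n ×ˢ Icc 1 n).filter (fun x => ZL Q M x.1 x.2 = r)).filter
      (fun x => (x.1 % Q, x.2 % Q) = c)
      = ((Icc 1 n).filter (fun i => i ≡ c.1 [MOD Q])) ×ˢ ((Icc 1 n).filter (fun i => i ≡ c.2 [MOD Q])) := by
    ext x
    rw [Finset.mem_filter, Finset.mem_filter, Finset.mem_product, Finset.mem_product,
      Finset.mem_filter, Finset.mem_filter]
    simp only [Nat.ModEq, Nat.mod_eq_of_lt hc1, Nat.mod_eq_of_lt hc2]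
    constructor
    · rintro ⟨⟨⟨h3, h4⟩, _⟩, h6⟩
      have h7 : x.1 % Q = c.1 := by rw [← h6]
      have h8 : x.2 % Q = c.2 := by rw [← h6]
      exact ⟨⟨h3, h7⟩, ⟨h4, h8⟩⟩
    · rintro ⟨⟨h3, h7⟩, ⟨h4, h8⟩⟩
      have h9 : (x.1 % Q, x.2 % Q) = c := by ext <;> assumption
      refine ⟨⟨⟨h3, h4⟩, ?_⟩, h9⟩
      rw [← ZL_periodic, h7, h8]; exact hc3
  rw [h2, Finset.card_product]
  unfold w
  have hnr : (n : ℝ) ≠ 0 := by exact_mod_cast hn.ne'
  push_cast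
  field_simp

lemma freqL_tendsto (Q M r : ℕ) (hQ : 0 < Q) : Tendsto (freqL Q M r) atTop (𝓝 (qL Q M r)) := by
  have h1 : Tendsto (fun n => ∑ x ∈ (range Q ×ˢ range Q).filter (fun x => ZL Q M x.1 x.2 = r),
      w Q x.1 n * w Q x.2 n) atTop (𝓝 (∑ x ∈ (range Q ×ˢ range Q).filter (fun x => ZL Q M x.1 x.2 = r),
      (1 / (Q : ℝ)) * (1 / (Q : ℝ)))) :=
    tendsto_finsetSum _ fun x _ => (w_tendsto Q x.1 hQ).mul (w_tendsto Q x.2 hQ)
  have h2 : (∑ x ∈ (range Q ×ˢ range Q).filter (fun x => ZL Q M x.1 x.2 = r),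
      (1 / (Q : ℝ)) * (1 / (Q : ℝ))) = qL Q M r := by
    rw [Finset.sum_const, nsmul_eq_mul, qL]
    have : (Q : ℝ) ≠ 0 := by exact_mod_cast hQ.ne'
    field_simp
  rw [h2] at h1
  refine h1.congr' ?_
  filter_upwards [eventually_gt_atTop 0] with n hn
  rw [freqL_eq Q M r n hQ hn]

/-! ### comparison of the two counts -/

lemma count_dvd (p i n : ℕ) (M : ℕ) (hi : i ≤ M) :
    ((Icc 1 n).filter (fun a => p ∣ a + i)).card ≤ (n + M) / p := by
  have h1 := Nat.Ioc_filter_dvd_card_eq_div (n + M) p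
  rw [← h1]
  refine Finset.card_le_card_of_injOn (fun a => a + i) ?_ ?_
  · intro a ha
    rw [Finset.mem_coe, Finset.mem_filter, Finset.mem_Icc] at ha
    rw [Finset.mem_coe, Finset.mem_filter, Finset.mem_Ioc]
    exact ⟨⟨by dsimp only; omega, by dsimp only; omega⟩, ha.2⟩
  · intro a _ b _ h
    simpa using h

lemma differ (L M n : ℕ) (hL : 0 < L) (hMn : M ≤ n) (hn : 0 < n) :
    (((Icc 1 n ×ˢ Icc 1 n).filter (fun x => Z M x.1 x.2 ≠ ZL L.factorial M x.1 x.2)).card : ℝ)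
      ≤ 4 * (M : ℝ) ^ 2 / L * (n : ℝ) ^ 2 := by
  have hsub : (Icc 1 n ×ˢ Icc 1 n).filter (fun x => Z M x.1 x.2 ≠ ZL L.factorial M x.1 x.2) ⊆
      (Icc 1 M ×ˢ Icc 1 M).biUnion (fun y => (Ioc L (n + M)).biUnion (fun p =>
        ((Icc 1 n).filter (fun a => p ∣ a + y.1)) ×ˢ ((Icc 1 n).filter (fun b => p ∣ b + y.2)))) := by
    intro x hx
    rw [Finset.mem_filter, Finset.mem_product] at hx
    obtain ⟨⟨hx1, hx2⟩, hne⟩ := hx
    have hne' : (Icc 1 M ×ˢ Icc 1 M).filter (fun y => Nat.gcd (x.1 + y.1) (x.2 + y.2) = 1) ≠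
        (Icc 1 M ×ˢ Icc 1 M).filter (fun y => Nat.Coprime (Nat.gcd (x.1 + y.1) (x.2 + y.2)) L.factorial) := by
      intro h
      apply hne
      rw [Z_eq, ZL, h]
    have hex : ∃ y ∈ Icc 1 M ×ˢ Icc 1 M, Nat.gcd (x.1 + y.1) (x.2 + y.2) ≠ 1 ∧
        Nat.Coprime (Nat.gcd (x.1 + y.1) (x.2 + y.2)) L.factorial := by
      by_contra hcon
      push Not at hcon
      apply hne'
      apply Finset.filter_congr
      intro y hy
      constructor
      · intro h; rw [h]; exact Nat.coprime_one_left _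
      · intro h
        by_contra h2
        exact hcon y hy h2 h
    obtain ⟨y, hy, hg1, hcop⟩ := hex
    obtain ⟨p, hp, hpg⟩ := Nat.exists_prime_and_dvd hg1
    have hpL : L < p := by
      by_contra hlt
      push Not at hlt
      have h1 : p ∣ L.factorial := (hp.dvd_factorial).mpr hlt
      have h2 : p ∣ 1 := by
        have := Nat.dvd_gcd hpg h1
        rwa [hcop] at this
      exact hp.one_lt.ne' (Nat.dvd_one.mp h2)
    have hp1 : p ∣ x.1 + y.1 := hpg.trans (Nat.gcd_dvd_left _ _)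
    have hp2 : p ∣ x.2 + y.2 := hpg.trans (Nat.gcd_dvd_right _ _)
    have hy' := hy
    rw [Finset.mem_product, Finset.mem_Icc, Finset.mem_Icc] at hy'
    have hx1' := Finset.mem_Icc.mp hx1
    have hpn : p ≤ n + M := (Nat.le_of_dvd (by omega) hp1).trans (by omega)
    rw [Finset.mem_biUnion]
    refine ⟨y, hy, ?_⟩
    rw [Finset.mem_biUnion]
    refine ⟨p, Finset.mem_Ioc.mpr ⟨hpL, hpn⟩, ?_⟩
    rw [Finset.mem_product, Finset.mem_filter, Finset.mem_filter]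
    exact ⟨⟨hx1, hp1⟩, ⟨hx2, hp2⟩⟩
  have hnr : (0 : ℝ) < n := by exact_mod_cast hn
  have hLr : (0 : ℝ) < L := by exact_mod_cast hL
  have hcard : (((Icc 1 n ×ˢ Icc 1 n).filter (fun x => Z M x.1 x.2 ≠ ZL L.factorial M x.1 x.2)).card : ℝ)
      ≤ ∑ y ∈ Icc 1 M ×ˢ Icc 1 M, ∑ p ∈ Ioc L (n + M),
        ((((Icc 1 n).filter (fun a => p ∣ a + y.1)) ×ˢ ((Icc 1 n).filter (fun b => p ∣ b + y.2))).card : ℝ) := by
    have h1 := (Finset.card_le_card hsub).trans (Finset.card_biUnion_le.trans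
      (Finset.sum_le_sum fun y _ => Finset.card_biUnion_le))
    exact_mod_cast h1
  refine hcard.trans ?_
  have h2 : ∀ y ∈ Icc 1 M ×ˢ Icc 1 M, ∑ p ∈ Ioc L (n + M),
        ((((Icc 1 n).filter (fun a => p ∣ a + y.1)) ×ˢ ((Icc 1 n).filter (fun b => p ∣ b + y.2))).card : ℝ)
        ≤ 4 / L * (n : ℝ) ^ 2 := by
    intro y hy
    rw [Finset.mem_product, Finset.mem_Icc, Finset.mem_Icc] at hy
    have h3 : ∀ p ∈ Ioc L (n + M),
        ((((Icc 1 n).filter (fun a => p ∣ a + y.1)) ×ˢ ((Icc 1 n).filter (fun b => p ∣ b + y.2))).card : ℝ)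
        ≤ (2 * (n : ℝ)) ^ 2 * ((p : ℝ) ^ 2)⁻¹ := by
      intro p _
      rw [Finset.card_product]
      push_cast
      have h4 : ∀ i, i ≤ M → ((((Icc 1 n).filter (fun a => p ∣ a + i)).card : ℕ) : ℝ) ≤ 2 * (n : ℝ) / p := by
        intro i hi
        have h5 := count_dvd p i n M hi
        calc ((((Icc 1 n).filter (fun a => p ∣ a + i)).card : ℕ) : ℝ) ≤ (((n + M) / p : ℕ) : ℝ) := by
              exact_mod_cast h5
          _ ≤ ((n + M : ℕ) : ℝ) / p := Nat.cast_div_le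
          _ ≤ 2 * (n : ℝ) / p := by
              apply div_le_div_of_nonneg_right _ (by positivity)
              have : (M : ℝ) ≤ n := by exact_mod_cast hMn
              push_cast; linarith
      calc ((((Icc 1 n).filter (fun a => p ∣ a + y.1)).card : ℕ) : ℝ) *
            ((((Icc 1 n).filter (fun b => p ∣ b + y.2)).card : ℕ) : ℝ)
          ≤ (2 * (n : ℝ) / p) * (2 * (n : ℝ) / p) :=
            mul_le_mul (h4 _ hy.1.2) (h4 _ hy.2.2) (by positivity) (by positivity)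
        _ = (2 * (n : ℝ)) ^ 2 * ((p : ℝ) ^ 2)⁻¹ := by
            rw [div_mul_div_comm, ← sq, ← sq, div_eq_mul_inv]
    refine (Finset.sum_le_sum h3).trans ?_
    rw [← Finset.mul_sum]
    have h6 : ∑ p ∈ Ioc L (n + M), ((p : ℝ) ^ 2)⁻¹ ≤ (L : ℝ)⁻¹ := by
      rcases Nat.lt_or_ge (n + M) L with h | h
      · rw [Finset.Ioc_eq_empty (by omega)]; simp
      · have := sum_Ioc_inv_sq_le_sub (α := ℝ) hL.ne' h
        have h7 : (0 : ℝ) ≤ ((n + M : ℕ) : ℝ)⁻¹ := by positivity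
        linarith
    calc (2 * (n : ℝ)) ^ 2 * ∑ p ∈ Ioc L (n + M), ((p : ℝ) ^ 2)⁻¹ ≤ (2 * (n : ℝ)) ^ 2 * (L : ℝ)⁻¹ :=
          mul_le_mul_of_nonneg_left h6 (by positivity)
      _ = 4 / L * (n : ℝ) ^ 2 := by field_simp; ring
  refine (Finset.sum_le_sum h2).trans ?_
  rw [Finset.sum_const, Finset.card_product, Nat.card_Icc, nsmul_eq_mul]
  apply le_of_eq
  simp only [Nat.add_sub_cancel]
  push_cast
  ring

lemma freq_close (L M r n : ℕ) (hL : 0 < L) (hMn : M ≤ n) (hn : 0 < n) :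
    |freq M r n - freqL L.factorial M r n| ≤ 4 * (M : ℝ) ^ 2 / L := by
  have hnr : (0 : ℝ) < (n : ℝ) ^ 2 := by
    have : (0 : ℝ) < n := by exact_mod_cast hn
    positivity
  have hd := differ L M n hL hMn hn
  set S := Icc 1 n ×ˢ Icc 1 n
  have h1 : (S.filter (fun x => Z M x.1 x.2 = r)).card ≤ (S.filter (fun x => ZL L.factorial M x.1 x.2 = r)).card
      + (S.filter (fun x => Z M x.1 x.2 ≠ ZL L.factorial M x.1 x.2)).card := by
    refine (Finset.card_le_card ?_).trans (Finset.card_union_le _ _)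
    intro x hx
    rw [Finset.mem_filter] at hx
    rw [Finset.mem_union, Finset.mem_filter, Finset.mem_filter]
    by_cases h : Z M x.1 x.2 = ZL L.factorial M x.1 x.2
    · left; exact ⟨hx.1, by rw [← h]; exact hx.2⟩
    · right; exact ⟨hx.1, h⟩
  have h2 : (S.filter (fun x => ZL L.factorial M x.1 x.2 = r)).card ≤ (S.filter (fun x => Z M x.1 x.2 = r)).card
      + (S.filter (fun x => Z M x.1 x.2 ≠ ZL L.factorial M x.1 x.2)).card := by
    refine (Finset.card_le_card ?_).trans (Finset.card_union_le _ _)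
    intro x hx
    rw [Finset.mem_filter] at hx
    rw [Finset.mem_union, Finset.mem_filter, Finset.mem_filter]
    by_cases h : Z M x.1 x.2 = ZL L.factorial M x.1 x.2
    · left; exact ⟨hx.1, by rw [h]; exact hx.2⟩
    · right; exact ⟨hx.1, h⟩
  have h1' : ((S.filter (fun x => Z M x.1 x.2 = r)).card : ℝ) ≤ (S.filter (fun x => ZL L.factorial M x.1 x.2 = r)).card
      + (S.filter (fun x => Z M x.1 x.2 ≠ ZL L.factorial M x.1 x.2)).card := by exact_mod_cast h1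
  have h2' : ((S.filter (fun x => ZL L.factorial M x.1 x.2 = r)).card : ℝ) ≤ (S.filter (fun x => Z M x.1 x.2 = r)).card
      + (S.filter (fun x => Z M x.1 x.2 ≠ ZL L.factorial M x.1 x.2)).card := by exact_mod_cast h2
  unfold freq freqL
  rw [← sub_div, abs_div, abs_of_pos hnr, div_le_iff₀ hnr, abs_le]
  constructor <;> linarith

/-- the limit frequencies exist -/
lemma exists_limit (M r : ℕ) : ∃ p : ℝ, Tendsto (freq M r) atTop (𝓝 p) := by
  apply cauchySeq_tendsto_of_complete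
  rw [Metric.cauchySeq_iff']
  intro ε hε
  obtain ⟨L, hL⟩ : ∃ L : ℕ, max 1 (16 * (M : ℝ) ^ 2 / ε) ≤ (L : ℝ) := exists_nat_ge _
  have hL1 : 0 < L := by
    have := (le_max_left _ _).trans hL
    exact_mod_cast (lt_of_lt_of_le one_pos this)
  have hLr : (0 : ℝ) < L := by exact_mod_cast hL1
  have hL2 : 4 * (M : ℝ) ^ 2 / L ≤ ε / 4 := by
    have h1 := (le_max_right _ _).trans hL
    rw [div_le_iff₀ hε] at h1
    rw [div_le_iff₀ hLr]
    linarith
  have hc := (freqL_tendsto L.factorial M r (Nat.factorial_pos L)).cauchySeq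
  rw [Metric.cauchySeq_iff'] at hc
  obtain ⟨N, hN⟩ := hc (ε / 4) (by positivity)
  have hc2 := (freqL_tendsto L.factorial M r (Nat.factorial_pos L)).cauchySeq
  rw [Metric.cauchySeq_iff] at hc2
  obtain ⟨N2, hN2⟩ := hc2 (ε / 4) (by positivity)
  refine ⟨max (max N2 M) 1, fun n hn => ?_⟩
  set m := max (max N2 M) 1 with hm
  have hm1 : M ≤ m := (le_max_right _ _).trans (le_max_left _ _)
  have hm2 : N2 ≤ m := (le_max_left _ _).trans (le_max_left _ _)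
  have hm3 : 0 < m := lt_of_lt_of_le one_pos (le_max_right _ _)
  have a1 := freq_close L M r n hL1 (hm1.trans hn) (lt_of_lt_of_le hm3 hn)
  have a2 := freq_close L M r m hL1 hm1 hm3
  have a3 := hN2 n (hm2.trans hn) m hm2
  rw [Real.dist_eq] at a3 ⊢
  rw [abs_le] at a1 a2
  rw [abs_lt] at a3 ⊢
  constructor <;> linarith [a1.1, a1.2, a2.1, a2.2, a3.1, a3.2]

lemma limit_close (L M r : ℕ) (hL : 0 < L) (p : ℝ) (hp : Tendsto (freq M r) atTop (𝓝 p)) :
    |p - qL L.factorial M r| ≤ 4 * (M : ℝ) ^ 2 / L := by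
  have h1 := (hp.sub (freqL_tendsto L.factorial M r (Nat.factorial_pos L))).abs
  refine le_of_tendsto h1 ?_
  filter_upwards [eventually_ge_atTop M, eventually_gt_atTop 0] with n hn hn0
  exact freq_close L M r n hL hn hn0

lemma sum_freq (M n : ℕ) (hn : 0 < n) : ∑ r ∈ range (M ^ 2 + 1), freq M r n = 1 := by
  unfold freq
  rw [← Finset.sum_div, ← Nat.cast_sum,
    ← Finset.card_eq_sum_card_fiberwise (s := Icc 1 n ×ˢ Icc 1 n) (t := range (M ^ 2 + 1))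
      (f := fun x => Z M x.1 x.2)
      (fun x _ => Finset.mem_coe.mpr (Finset.mem_range.mpr (Nat.lt_succ_of_le (Z_le M x.1 x.2)))),
    Finset.card_product, Nat.card_Icc]
  have hnr : (n : ℝ) ≠ 0 := by exact_mod_cast hn.ne'
  simp only [Nat.add_sub_cancel]
  push_cast
  field_simp

lemma sum_qL (Q M : ℕ) (hQ : 0 < Q) (c : ℝ) :
    ∑ r ∈ range (M ^ 2 + 1), qL Q M r * ((r : ℝ) - c) ^ 2
      = (∑ a ∈ range Q, ∑ b ∈ range Q, ((ZL Q M a b : ℝ) - c) ^ 2) / (Q : ℝ) ^ 2 := by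
  have h1 : ∑ a ∈ range Q, ∑ b ∈ range Q, ((ZL Q M a b : ℝ) - c) ^ 2
      = ∑ x ∈ range Q ×ˢ range Q, ((ZL Q M x.1 x.2 : ℝ) - c) ^ 2 := by
    rw [Finset.sum_product]
  rw [h1, ← Finset.sum_fiberwise_of_maps_to (s := range Q ×ˢ range Q) (t := range (M ^ 2 + 1))
      (g := fun x => ZL Q M x.1 x.2)
      (fun x _ => Finset.mem_range.mpr (Nat.lt_succ_of_le (ZL_le Q M x.1 x.2))), Finset.sum_div]
  refine Finset.sum_congr rfl fun r _ => ?_
  have h2 : ∑ x ∈ (range Q ×ˢ range Q).filter (fun x => ZL Q M x.1 x.2 = r), ((ZL Q M x.1 x.2 : ℝ) - c) ^ 2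
      = ∑ x ∈ (range Q ×ˢ range Q).filter (fun x => ZL Q M x.1 x.2 = r), ((r : ℝ) - c) ^ 2 := by
    refine Finset.sum_congr rfl fun x hx => ?_
    rw [(Finset.mem_filter.mp hx).2]
  rw [h2, Finset.sum_const, nsmul_eq_mul, qL]
  ring

lemma abs_cen (Q M : ℕ) : |cen Q M| ≤ 2 * (M : ℝ) ^ 2 := by
  unfold cen
  refine (Finset.abs_sum_le_sum_abs _ _).trans ?_
  calc ∑ d ∈ Q.divisors, |mu d * ((M : ℝ) ^ 2 / (d : ℝ) ^ 2)|
      ≤ ∑ d ∈ Q.divisors, (M : ℝ) ^ 2 * ((d : ℝ) ^ 2)⁻¹ := by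
        refine Finset.sum_le_sum fun d _ => ?_
        rw [abs_mul, abs_of_nonneg (show (0 : ℝ) ≤ (M : ℝ) ^ 2 / (d : ℝ) ^ 2 by positivity), div_eq_mul_inv]
        calc |mu d| * ((M : ℝ) ^ 2 * ((d : ℝ) ^ 2)⁻¹) ≤ 1 * ((M : ℝ) ^ 2 * ((d : ℝ) ^ 2)⁻¹) :=
              mul_le_mul_of_nonneg_right (abs_mu d) (by positivity)
          _ = _ := one_mul _
    _ ≤ ∑ d ∈ Icc 1 Q, (M : ℝ) ^ 2 * ((d : ℝ) ^ 2)⁻¹ := by
        refine Finset.sum_le_sum_of_subset_of_nonneg ?_ (fun i _ _ => by positivity)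
        intro g hg
        exact Finset.mem_Icc.mpr ⟨Nat.pos_of_mem_divisors hg, Nat.divisor_le hg⟩
    _ ≤ 2 * (M : ℝ) ^ 2 := by
        rw [← Finset.mul_sum]
        have := mul_le_mul_of_nonneg_left (sum_inv_sq Q) (show (0 : ℝ) ≤ (M : ℝ) ^ 2 by positivity)
        linarith

/-- For every `M` the limit law `p_M` exists, and its variance is at most `C M²` with an absolute
constant `C`. -/
theorem result : ∃ C : ℝ, 0 < C ∧ ∀ M : ℕ, 1 ≤ M → ∃ p : ℕ → ℝ,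
    (∀ r : ℕ, Tendsto (freq M r) atTop (𝓝 (p r))) ∧
    ∑ r ∈ range (M ^ 2 + 1), p r = 1 ∧
    ∑ r ∈ range (M ^ 2 + 1), p r * (r : ℝ) ^ 2 - (∑ r ∈ range (M ^ 2 + 1), p r * (r : ℝ)) ^ 2
      ≤ C * (M : ℝ) ^ 2 := by
  refine ⟨145, by norm_num, fun M hM => ?_⟩
  choose p hp using exists_limit M
  have hsum : ∑ r ∈ range (M ^ 2 + 1), p r = 1 := by
    have h1 : Tendsto (fun n => ∑ r ∈ range (M ^ 2 + 1), freq M r n) atTop
        (𝓝 (∑ r ∈ range (M ^ 2 + 1), p r)) := tendsto_finsetSum _ fun r _ => hp r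
    have h2 : Tendsto (fun n => ∑ r ∈ range (M ^ 2 + 1), freq M r n) atTop (𝓝 1) := by
      refine tendsto_const_nhds.congr' ?_
      filter_upwards [eventually_gt_atTop 0] with n hn
      rw [sum_freq M n hn]
    exact tendsto_nhds_unique h1 h2
  refine ⟨p, hp, hsum, ?_⟩
  have hM1 : (1 : ℝ) ≤ M := by exact_mod_cast hM
  have hM2 : (1 : ℝ) ≤ (M : ℝ) ^ 2 := one_le_pow₀ hM1
  -- choose the truncation level
  obtain ⟨L, hL⟩ : ∃ L : ℕ, max 1 (((M : ℝ) ^ 2 + 1) * (4 * (M : ℝ) ^ 2) * (3 * (M : ℝ) ^ 2) ^ 2) ≤ (L : ℝ) :=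
    exists_nat_ge _
  have hL1 : 0 < L := by
    have := (le_max_left _ _).trans hL
    exact_mod_cast (lt_of_lt_of_le one_pos this)
  have hLr : (0 : ℝ) < L := by exact_mod_cast hL1
  have hL2 := (le_max_right _ _).trans hL
  set c := cen L.factorial M with hc
  have hQ : 0 < L.factorial := Nat.factorial_pos L
  have hQr : (0 : ℝ) < (L.factorial : ℝ) ^ 2 := by
    have : (0 : ℝ) < L.factorial := by exact_mod_cast hQ
    positivity
  -- variance is at most the second moment about `c`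
  have hvar : ∑ r ∈ range (M ^ 2 + 1), p r * (r : ℝ) ^ 2 - (∑ r ∈ range (M ^ 2 + 1), p r * (r : ℝ)) ^ 2
      ≤ ∑ r ∈ range (M ^ 2 + 1), p r * ((r : ℝ) - c) ^ 2 := by
    have h1 : ∑ r ∈ range (M ^ 2 + 1), p r * ((r : ℝ) - c) ^ 2
        = ∑ r ∈ range (M ^ 2 + 1), p r * (r : ℝ) ^ 2 - 2 * c * ∑ r ∈ range (M ^ 2 + 1), p r * (r : ℝ)
          + c ^ 2 * ∑ r ∈ range (M ^ 2 + 1), p r := by
      rw [Finset.mul_sum, Finset.mul_sum, ← Finset.sum_sub_distrib, ← Finset.sum_add_distrib]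
      refine Finset.sum_congr rfl fun r _ => ?_
      ring
    rw [h1, hsum]
    nlinarith [sq_nonneg ((∑ r ∈ range (M ^ 2 + 1), p r * (r : ℝ)) - c)]
  have hcomp : ∑ r ∈ range (M ^ 2 + 1), p r * ((r : ℝ) - c) ^ 2
      ≤ ∑ r ∈ range (M ^ 2 + 1), qL L.factorial M r * ((r : ℝ) - c) ^ 2
        + ∑ r ∈ range (M ^ 2 + 1), (4 * (M : ℝ) ^ 2 / L) * (3 * (M : ℝ) ^ 2) ^ 2 := by
    rw [← Finset.sum_add_distrib]
    refine Finset.sum_le_sum fun r hr => ?_
    have h1 := limit_close L M r hL1 (p r) (hp r)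
    have h2 : ((r : ℝ) - c) ^ 2 ≤ (3 * (M : ℝ) ^ 2) ^ 2 := by
      have h3 : (r : ℝ) ≤ (M : ℝ) ^ 2 := by
        have : r ≤ M ^ 2 := Nat.lt_succ_iff.mp (Finset.mem_range.mp hr)
        exact_mod_cast this
      have h4 := abs_cen L.factorial M
      rw [← hc, abs_le] at h4
      have h5 : (0 : ℝ) ≤ r := by positivity
      rw [← sq_abs]
      apply pow_le_pow_left₀ (abs_nonneg _)
      rw [abs_le]
      constructor <;> linarith
    have h6 : p r - qL L.factorial M r ≤ 4 * (M : ℝ) ^ 2 / L := (le_abs_self _).trans h1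
    have h7 : (p r - qL L.factorial M r) * ((r : ℝ) - c) ^ 2 ≤ (4 * (M : ℝ) ^ 2 / L) * (3 * (M : ℝ) ^ 2) ^ 2 :=
      calc (p r - qL L.factorial M r) * ((r : ℝ) - c) ^ 2
          ≤ (4 * (M : ℝ) ^ 2 / L) * ((r : ℝ) - c) ^ 2 := mul_le_mul_of_nonneg_right h6 (sq_nonneg _)
        _ ≤ _ := mul_le_mul_of_nonneg_left h2 (by positivity)
    linarith
  have hq : ∑ r ∈ range (M ^ 2 + 1), qL L.factorial M r * ((r : ℝ) - c) ^ 2 ≤ 144 * (M : ℝ) ^ 2 := by
    rw [sum_qL L.factorial M hQ c, div_le_iff₀ hQr]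
    have := second_moment L.factorial M hQ
    linarith
  have herr : ∑ r ∈ range (M ^ 2 + 1), (4 * (M : ℝ) ^ 2 / L) * (3 * (M : ℝ) ^ 2) ^ 2 ≤ 1 := by
    rw [Finset.sum_const, Finset.card_range, nsmul_eq_mul]
    push_cast
    have : ((M : ℝ) ^ 2 + 1) * (4 * (M : ℝ) ^ 2 / L * (3 * (M : ℝ) ^ 2) ^ 2)
        = (((M : ℝ) ^ 2 + 1) * (4 * (M : ℝ) ^ 2) * (3 * (M : ℝ) ^ 2) ^ 2) / L := by ring
    rw [this, div_le_one hLr]
    exact hL2
  linarith

end Pool.Agent.Results.MP_143e3a_nt.CoprimeVariance
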